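import Pool.Agent.Q215.WR.Stm

/-! Project WR (helper215), job TGT (helper252). -/

set_option autoImplicit false

open Set Topology Filter

namespace Pool.Agent.Q252.WR

open Pool.Agent.Q215.WR

theorem pi_compl {B : Set ℝ} (h : PI B) : PI Bᶜ := fun x y hxy =>
  ⟨(h x y hxy).2, by rw [compl_compl]; exact (h x y hxy).1⟩

/-- from a point of an open set with `PI` to the right nothing else is met -/
theorem right_of {B : Set ℝ} (h : PI B) (ho : IsOpen B) {x y : ℝ} (hx : x ∈ B) (hxy : x < y) : y ∈ B := by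
  by_contra hy
  let S : Set ℝ := {z | z ∈ Icc x y ∧ Icc x z ⊆ B}
  have hxS : x ∈ S := ⟨⟨le_rfl, hxy.le⟩, by rw [Icc_self]; exact singleton_subset_iff.2 hx⟩
  have hbdd : BddAbove S := ⟨y, fun z hz => hz.1.2⟩
  set s := sSup S with hs
  have hxs : x ≤ s := le_csSup hbdd hxS
  have hsy : s ≤ y := csSup_le ⟨x, hxS⟩ fun z hz => hz.1.2
  have h1 : Icc x s ⊆ B := by
    rcases eq_or_lt_of_le hxs with h2 | h2
    · rw [← h2, Icc_self]
      exact singleton_subset_iff.2 hx
    · refine (h x s h2).1 fun z hz => ?_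
      obtain ⟨t, ht, hzt⟩ := exists_lt_of_lt_csSup ⟨x, hxS⟩ hz.2
      exact ht.2 ⟨hz.1.le, hzt.le⟩
  have hsB : s ∈ B := h1 ⟨hxs, le_rfl⟩
  have hne : s ≠ y := fun h2 => hy (h2 ▸ hsB)
  have hlt : s < y := lt_of_le_of_ne hsy hne
  obtain ⟨ε, hε, hball⟩ := Metric.isOpen_iff.1 ho s hsB
  have h2 : min (s + ε / 2) y ∈ S := by
    refine ⟨⟨le_min (by linarith) hxy.le, min_le_right _ _⟩, fun z hz => ?_⟩
    by_cases hzs : z ≤ s
    · exact h1 ⟨hz.1, hzs⟩
    · push Not at hzs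
      apply hball
      rw [Metric.mem_ball, Real.dist_eq, abs_of_pos (by linarith)]
      have := hz.2.trans (min_le_left _ _)
      linarith
  have h3 := le_csSup hbdd h2
  rw [← hs] at h3
  have h4 : s < min (s + ε / 2) y := lt_min (by linarith) hlt
  linarith

theorem pi_neg {B : Set ℝ} (h : PI B) : PI ((fun x : ℝ => -x) ⁻¹' B) := by
  have key : ∀ D : Set ℝ, (∀ x y : ℝ, x < y → Ioo x y ⊆ D → Icc x y ⊆ D) → ∀ x y : ℝ, x < y →
      Ioo x y ⊆ (fun x : ℝ => -x) ⁻¹' D → Icc x y ⊆ (fun x : ℝ => -x) ⁻¹' D := by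
    intro D hD x y hxy hsub z hz
    refine hD (-y) (-x) (neg_lt_neg hxy) (fun w hw => ?_) ⟨neg_le_neg hz.2, neg_le_neg hz.1⟩
    have h1 := hsub (a := -w) ⟨by linarith [hw.2], by linarith [hw.1]⟩
    rw [mem_preimage, neg_neg] at h1
    exact h1
  intro x y hxy
  exact ⟨key B (fun x y hxy => (h x y hxy).1) x y hxy, key Bᶜ (fun x y hxy => (h x y hxy).2) x y hxy⟩

theorem all_of_open {B : Set ℝ} (h : PI B) (ho : IsOpen B) {x : ℝ} (hx : x ∈ B) (y : ℝ) : y ∈ B := by
  rcases lt_trichotomy x y with h1 | h1 | h1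
  · exact right_of h ho hx h1
  · exact h1 ▸ hx
  · have h2 := right_of (pi_neg h) (ho.preimage continuous_neg) (x := -x) (y := -y)
      (by rw [mem_preimage, neg_neg]; exact hx) (neg_lt_neg h1)
    rw [mem_preimage, neg_neg] at h2
    exact h2

/-- the oscillating function -/
noncomputable def gg (a b y : ℝ) : ℝ := (a + b) / 2 - (b - a) / 2 * Real.cos y

theorem gg_cont (a b : ℝ) : Continuous (gg a b) := by
  unfold gg
  fun_prop

theorem gg_mem {a b : ℝ} (hab : a < b) (y : ℝ) : gg a b y ∈ Icc a b := by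
  unfold gg
  have h1 := Real.cos_le_one y
  have h2 := Real.neg_one_le_cos y
  constructor <;> nlinarith

theorem gg_even (a b : ℝ) (k : ℤ) : gg a b (k * (2 * Real.pi)) = a := by
  unfold gg
  rw [Real.cos_int_mul_two_pi]
  ring

theorem gg_odd (a b : ℝ) (k : ℤ) : gg a b (k * (2 * Real.pi) + Real.pi) = b := by
  unfold gg
  rw [Real.cos_int_mul_two_pi_add_pi]
  ring

/-- the cosine is not constant on an interval -/
theorem cos_nonconst {p q : ℝ} (hpq : p < q) : ∃ y ∈ Ioo p q, ∃ z ∈ Ioo p q, Real.cos y ≠ Real.cos z := by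
  by_contra hcon
  push Not at hcon
  have hm : (p + q) / 2 ∈ Ioo p q := ⟨by linarith, by linarith⟩
  have h1 : ∀ y ∈ Ioo p q, Real.sin y = 0 := by
    intro y hy
    have h2 : Real.cos =ᶠ[𝓝 y] fun _ => Real.cos ((p + q) / 2) := by
      filter_upwards [Ioo_mem_nhds hy.1 hy.2] with z hz
      exact hcon z hz _ hm
    have h3 := h2.deriv_eq
    rw [Real.deriv_cos, deriv_const] at h3
    linarith
  have h4 : ∀ y ∈ Ioo p q, Real.cos y = 0 := by
    intro y hy
    have h2 : Real.sin =ᶠ[𝓝 y] fun _ => (0 : ℝ) := by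
      filter_upwards [Ioo_mem_nhds hy.1 hy.2] with z hz
      exact h1 z hz
    have h3 := h2.deriv_eq
    rw [Real.deriv_sin, deriv_const] at h3
    exact h3
  have h5 := Real.sin_sq_add_cos_sq ((p + q) / 2)
  rw [h1 _ hm, h4 _ hm] at h5
  norm_num at h5

theorem t_tgt : S_tgt := by
  rintro hbasic C ⟨f0, hf0, hC0⟩ u v ⟨c, hcI, hcC⟩ ⟨d, hdI, hdC⟩
  have hcd : c ≠ d := fun h => hdC (h ▸ hcC)
  set a := min c d with ha
  set b := max c d with hb
  have hab : a < b := min_lt_max.2 hcd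
  have hau : u < a := lt_min hcI.1 hdI.1
  have hbv : b < v := max_lt hcI.2 hdI.2
  have hga := gg_mem hab
  set g := gg a b with hg
  have hgc : Continuous g := gg_cont a b
  set C' : Set ℝ := g ⁻¹' C with hC'
  have hRed : Red C' QQ := ⟨fun x => f0 (g x), hf0.comp hgc, by rw [hC', hC0]; rfl⟩
  have hPI : PI C' := (hbasic C' hRed).1
  -- both kinds of points
  have hends : (∀ k : ℤ, ((k : ℝ) * (2 * Real.pi) ∈ C' ∧ (k : ℝ) * (2 * Real.pi) + Real.pi ∉ C') ∨
      ((k : ℝ) * (2 * Real.pi) ∉ C' ∧ (k : ℝ) * (2 * Real.pi) + Real.pi ∈ C')) := by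
    intro k
    have h1 : g ((k : ℝ) * (2 * Real.pi)) = a := gg_even a b k
    have h2 : g ((k : ℝ) * (2 * Real.pi) + Real.pi) = b := gg_odd a b k
    rw [hC', mem_preimage, mem_preimage, h1, h2]
    rcases lt_or_gt_of_ne hcd with h | h
    · left
      rw [ha, hb, min_eq_left h.le, max_eq_right h.le]
      exact ⟨hcC, hdC⟩
    · right
      rw [ha, hb, min_eq_right h.le, max_eq_left h.le]
      exact ⟨hdC, hcC⟩
  obtain ⟨x1, hx1⟩ : ∃ x, x ∈ C' := by
    rcases hends 0 with h | h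
    · exact ⟨_, h.1⟩
    · exact ⟨_, h.2⟩
  obtain ⟨x2, hx2⟩ : ∃ x, x ∉ C' := by
    rcases hends 0 with h | h
    · exact ⟨_, h.2⟩
    · exact ⟨_, h.1⟩
  have hfr : ∀ k : ℤ, ∃ x ∈ frontier C', (k : ℝ) * (2 * Real.pi) ≤ x ∧ x ≤ (k : ℝ) * (2 * Real.pi) + Real.pi := by
    intro k
    have hpi := Real.pi_pos
    have hconn : IsPreconnected (Icc ((k : ℝ) * (2 * Real.pi)) ((k : ℝ) * (2 * Real.pi) + Real.pi)) :=
      isPreconnected_Icc
    have hl : (k : ℝ) * (2 * Real.pi) ∈ Icc ((k : ℝ) * (2 * Real.pi)) ((k : ℝ) * (2 * Real.pi) + Real.pi) :=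
      ⟨le_rfl, by linarith⟩
    have hr : (k : ℝ) * (2 * Real.pi) + Real.pi ∈ Icc ((k : ℝ) * (2 * Real.pi)) ((k : ℝ) * (2 * Real.pi) + Real.pi) :=
      ⟨by linarith, le_rfl⟩
    by_contra hcon
    push Not at hcon
    have hcov : Icc ((k : ℝ) * (2 * Real.pi)) ((k : ℝ) * (2 * Real.pi) + Real.pi) ⊆ interior C' ∪ interior C'ᶜ := by
      intro x hx
      by_contra hx'
      rw [mem_union, not_or] at hx'
      have h1 : x ∈ frontier C' := by
        rw [frontier_eq_closure_inter_closure]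
        rw [interior_eq_compl_closure_compl, mem_compl_iff, not_not] at hx'
        refine ⟨?_, hx'.1⟩
        have h2 := hx'.2
        rw [interior_eq_compl_closure_compl, mem_compl_iff, not_not, compl_compl] at h2
        exact h2
      exact absurd hx.2 (not_le.2 (hcon x h1 hx.1))
    have h1 := hconn (interior C') (interior C'ᶜ) isOpen_interior isOpen_interior hcov
    have hcase : ∀ x ∈ Icc ((k : ℝ) * (2 * Real.pi)) ((k : ℝ) * (2 * Real.pi) + Real.pi),
        (x ∈ C' → x ∈ interior C') ∧ (x ∉ C' → x ∈ interior C'ᶜ) := by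
      intro x hx
      rcases hcov hx with h2 | h2
      · exact ⟨fun _ => h2, fun h3 => absurd (interior_subset h2) h3⟩
      · exact ⟨fun h3 => absurd h3 (interior_subset h2), fun _ => h2⟩
    have h2 : (Icc ((k : ℝ) * (2 * Real.pi)) ((k : ℝ) * (2 * Real.pi) + Real.pi) ∩ interior C').Nonempty ∧
        (Icc ((k : ℝ) * (2 * Real.pi)) ((k : ℝ) * (2 * Real.pi) + Real.pi) ∩ interior C'ᶜ).Nonempty := by
      rcases hends k with h | h
      · exact ⟨⟨_, hl, (hcase _ hl).1 h.1⟩, ⟨_, hr, (hcase _ hr).2 h.2⟩⟩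
      · exact ⟨⟨_, hr, (hcase _ hr).1 h.2⟩, ⟨_, hl, (hcase _ hl).2 h.1⟩⟩
    obtain ⟨x, _, h3, h4⟩ := h1 h2.1 h2.2
    exact (interior_subset h4) (interior_subset h3)
  refine ⟨C', ⟨hRed, fun ho => hx2 (all_of_open hPI ho hx1 x2), fun hc =>
    all_of_open (pi_compl hPI) hc.isOpen_compl hx2 x1 hx1⟩, ?_, ⟨g, hgc, rfl⟩, ?_⟩
  · intro R
    have hpi := Real.pi_pos
    constructor
    · obtain ⟨x, hx, h1, _⟩ := hfr (⌊|R|⌋ + 1)
      refine ⟨x, hx, lt_of_lt_of_le ?_ h1⟩
      have h2 := Int.lt_floor_add_one |R|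
      have h3 : (1 : ℝ) ≤ 2 * Real.pi := by linarith [Real.pi_gt_three]
      have h4 : (0 : ℝ) ≤ |R| := abs_nonneg R
      push_cast
      nlinarith [le_abs_self R]
    · obtain ⟨x, hx, _, h1⟩ := hfr (-(⌊|R|⌋ + 2))
      refine ⟨x, hx, lt_of_le_of_lt h1 ?_⟩
      have h2 := Int.lt_floor_add_one |R|
      have h3 : (3 : ℝ) < Real.pi := Real.pi_gt_three
      have h4 : (0 : ℝ) ≤ |R| := abs_nonneg R
      push_cast
      nlinarith [neg_abs_le R]
  · intro hint
    rw [eq_empty_iff_forall_notMem]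
    intro x hx
    rw [mem_interior_iff_mem_nhds, Metric.mem_nhds_iff] at hx
    obtain ⟨ε, hε, hball⟩ := hx
    rw [Real.ball_eq_Ioo] at hball
    obtain ⟨y, hy, z, hz, hyz⟩ := cos_nonconst (p := x - ε) (q := x + ε) (by linarith)
    have hgyz : g y ≠ g z := by
      intro h
      apply hyz
      have h1 : (a + b) / 2 - (b - a) / 2 * Real.cos y = (a + b) / 2 - (b - a) / 2 * Real.cos z := h
      have h2 : (b - a) / 2 ≠ 0 := by linarith
      have h3 : (b - a) / 2 * Real.cos y = (b - a) / 2 * Real.cos z := by linarith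
      exact mul_left_cancel₀ h2 h3
    have himg : uIcc (g y) (g z) ⊆ Cᶜ := by
      intro w hw
      have h1 : uIcc (g y) (g z) ⊆ g '' uIcc y z := intermediate_value_uIcc hgc.continuousOn
      obtain ⟨t, ht, rfl⟩ := h1 hw
      have h2 : t ∈ Ioo (x - ε) (x + ε) := by
        have h3 := ht.1
        have h4 := ht.2
        exact ⟨lt_of_lt_of_le (lt_min hy.1 hz.1) h3, lt_of_le_of_lt h4 (max_lt hy.2 hz.2)⟩
      exact hball h2
    have hlt : min (g y) (g z) < max (g y) (g z) := min_lt_max.2 hgyz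
    have hw : (min (g y) (g z) + max (g y) (g z)) / 2 ∈ Ioo u v ∩ interior Cᶜ := by
      constructor
      · have h1 := hga y
        have h2 := hga z
        have h3 : a ≤ min (g y) (g z) := le_min h1.1 h2.1
        have h4 : max (g y) (g z) ≤ b := max_le h1.2 h2.2
        exact ⟨by linarith, by linarith⟩
      · rw [mem_interior_iff_mem_nhds]
        refine mem_of_superset (Ioo_mem_nhds (a := min (g y) (g z)) (b := max (g y) (g z)) (by linarith)
          (by linarith)) fun w hw => himg ⟨hw.1.le, hw.2.le⟩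
    rw [hint] at hw
    exact hw

end Pool.Agent.Q252.WR
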